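import Mathlib
import Pool.Agent.Helper112.Pf.MainC

set_option autoImplicit false

namespace Pool.Agent.Results.MP_a61b9a_an.CornerPrism
open Helper112.Pf

/-- Convex bodies `K` whose Fourier transform `FT K` has a polynomial factor:
(1) for every `n` and every convex body `K ⊂ ℝⁿ`, there is a factor of degree one iff `K` is a prism;
(2) for every `n` and every polytope `K ⊂ ℝⁿ`, there is a polynomial factor iff `K` is a prism;
(3) for every convex body `K ⊂ ℝ²` with a corner (a point with two different supporting lines),
there is a polynomial factor iff `K` is a parallelogram (planar prism);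
(4) for every convex body `K ⊂ ℝ²`, if some polynomial factor has an asymptote of real direction,
then `K` is a parallelogram;
(5) a product of two convex bodies has a polynomial factor iff one of the two has one. -/
theorem result :
    (∀ (n : ℕ) (K : Set (Fin n → ℝ)), IsBody K → (HasLinearFactor K ↔ IsPrism K)) ∧
    (∀ (n : ℕ) (K : Set (Fin n → ℝ)), IsBody K → IsPolyhedral K → (HasPolyFactor K ↔ IsPrism K)) ∧
    (∀ K : Set (Fin 2 → ℝ), IsBody K → HasCorner K → (HasPolyFactor K ↔ IsPrism K)) ∧
    (∀ K : Set (Fin 2 → ℝ), IsBody K → ∀ p : MvPolynomial (Fin 2) ℂ, HasFactor p K →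
      RealAsymptote p → IsPrism K) ∧
    (∀ (m n : ℕ) (K1 : Set (Fin m → ℝ)) (K2 : Set (Fin n → ℝ)), IsBody K1 → IsBody K2 →
      (HasPolyFactor (Pr K1 K2) ↔ (HasPolyFactor K1 ∨ HasPolyFactor K2))) :=
  ⟨fun _ K hK => main_linear K hK, fun _ K hK hP => main_poly K hK hP, main_corner,
    main_asymptote, fun _ _ K1 K2 h1 h2 => main_prod K1 K2 h1 h2⟩

end Pool.Agent.Results.MP_a61b9a_an.CornerPrism
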