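import Mathlib
import Pool.Agent.Helper112.Pf.MainA

set_option autoImplicit false

namespace Pool.Agent.Results.MP_a61b9a_an.PolytopePrism
open Helper112.Pf

/-- For every convex body `K ⊂ ℝⁿ`: `FT K` has a polynomial factor of degree one iff `K` is a prism;
and if `K` is a polytope, `FT K` has any non-constant polynomial factor iff `K` is a prism. -/
theorem result (n : ℕ) (K : Set (Fin n → ℝ)) (hK : IsBody K) :
    (HasLinearFactor K ↔ IsPrism K) ∧ (IsPolyhedral K → (HasPolyFactor K ↔ IsPrism K)) :=
  ⟨main_linear K hK, main_poly K hK⟩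

end Pool.Agent.Results.MP_a61b9a_an.PolytopePrism
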